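import Pool.Agent.MP_587aff_al.Cones

set_option autoImplicit false
open scoped Pointwise
open Filter Topology

/-!
# MP_4bac43_al: the fixed-point property for cones for groups generated by commuting images
-/

open Pool.Agent.MP_587aff_al

universe u v w

namespace Pool.Agent.Results.MP_4bac43_al.CommutingImages

/-- The fixed-point property for cones, exactly as in the problem: every representation `ρ` of `G`
by continuous linear maps of a Hausdorff locally convex real space `E` preserving a proper weakly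
complete convex cone `C`, of locally bounded and of cobounded type, has a non-zero fixed point in
`C`. -/
def FPC (G : Type u) [Group G] : Prop :=
  ∀ (E : Type u) [AddCommGroup E] [Module ℝ E] [TopologicalSpace E]
      [IsTopologicalAddGroup E] [ContinuousSMul ℝ E] [LocallyConvexSpace ℝ E] [T2Space E]
      (C : PointedCone ℝ E) (ρ : G →* (E →L[ℝ] E)),
      (∀ x : E, x ∈ C → -x ∈ C → x = 0) →
      IsComplete ((fun x : E => fun f : E →L[ℝ] ℝ => f x) '' (C : Set E)) →
      (∀ g : G, ∀ x ∈ C, (ρ g) x ∈ C) →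
      (∃ x ∈ C, x ≠ 0 ∧ Bornology.IsVonNBounded ℝ (Set.range fun g : G => (ρ g) x)) →
      (∃ φ : E →L[ℝ] ℝ, ∀ l : E →L[ℝ] ℝ, ∃ (n : ℕ) (g : Fin n → G),
          ∀ x ∈ C, |l x| ≤ ∑ i, φ ((ρ (g i)⁻¹) x)) →
      ∃ x ∈ C, x ≠ 0 ∧ ∀ g : G, (ρ g) x = x

theorem weaklyComplete_iff {E : Type u} [AddCommGroup E] [Module ℝ E] [TopologicalSpace E]
    (C : Set E) :
    WeaklyComplete C ↔ IsComplete ((fun x : E => fun f : E →L[ℝ] ℝ => f x) '' C) := by
  set ι : E → (E →L[ℝ] ℝ) → ℝ := fun x => fun f => f x with hι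
  constructor
  · intro h 𝓕 hF hle
    obtain ⟨hne, hFc⟩ := hF
    set F : Filter E := 𝓟 C ⊓ comap ι 𝓕 with hFdef
    have hmap : map ι F = 𝓕 := by
      rw [hFdef, Filter.push_pull, Filter.map_principal]
      exact inf_eq_right.mpr hle
    have hFne : F.NeBot := by
      rw [← Filter.map_neBot_iff ι, hmap]
      exact hne
    have hCF : C ∈ F := Filter.mem_inf_of_left (Filter.mem_principal_self C)
    obtain ⟨c, hc, hlim⟩ := h F hFne hCF (fun l => by
      have h1 : F.map l = 𝓕.map (fun y => y l) := by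
        rw [← hmap, Filter.map_map]
        rfl
      rw [h1]
      exact Cauchy.map ⟨hne, hFc⟩ (Pi.uniformContinuous_proj _ l))
    refine ⟨ι c, ⟨c, hc, rfl⟩, ?_⟩
    rw [← hmap]
    exact tendsto_pi_nhds.mpr hlim
  · intro h F hFne hCF hl
    have hC : Cauchy (F.map ι) := by
      rw [cauchy_pi_iff]
      intro l
      have := hl l
      rw [Filter.map_map]
      exact this
    obtain ⟨_, ⟨c, hc, rfl⟩, hlim⟩ := h (F.map ι) hC (by
      rw [Filter.le_principal_iff]
      exact Filter.mem_map.mpr (Filter.mem_of_superset hCF (fun x hx => ⟨x, hx, rfl⟩)))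
    exact ⟨c, hc, fun l => (tendsto_pi_nhds.mp hlim) l⟩

theorem fpc_iff (G : Type u) [Group G] : FPC G ↔ FixedPointPropertyForCones G := by
  constructor
  · intro h E _ _ _ _ _ _ _ ρ C hC hlb hcb
    let C' : PointedCone ℝ E :=
      { carrier := C
        add_mem' := fun {a b} ha hb => hC.add_mem a ha b hb
        zero_mem' := hC.zero_mem
        smul_mem' := fun c x hx => hC.smul_mem c.1 c.2 x hx }
    have hmem : ∀ x, x ∈ C' ↔ x ∈ C := fun x => Iff.rfl
    obtain ⟨φ, hφ⟩ := hcb
    obtain ⟨x, hx, hx0, hfix⟩ := h E C' ρ (fun x hx hnx => hC.proper x hx hnx)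
      ((weaklyComplete_iff C).mp hC.complete) (fun g x hx => hC.maps g x hx)
      hlb ⟨φ, fun l => by
        obtain ⟨n, g, hg⟩ := hφ l
        refine ⟨n, g, fun x hx => ?_⟩
        rw [abs_le]
        have := hg x hx
        constructor
        · linarith [this.2]
        · exact this.1⟩
    exact ⟨x, hx, hx0, hfix⟩
  · intro h E _ _ _ _ _ _ _ C ρ hprop hcomp hmaps hlb hcb
    obtain ⟨φ, hφ⟩ := hcb
    obtain ⟨x, hx, hx0, hfix⟩ := h E ρ (C : Set E)
      { zero_mem := C.zero_mem
        add_mem := fun x hx y hy => C.add_mem hx hy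
        smul_mem := fun c hc x hx => C.smul_mem hc hx
        proper := fun x hx hnx => hprop x hx hnx
        complete := (weaklyComplete_iff (C : Set E)).mpr hcomp
        maps := hmaps } hlb ⟨φ, fun l => by
          obtain ⟨n, g, hg⟩ := hφ l
          refine ⟨n, g, fun x hx => ?_⟩
          have := hg x hx
          rw [abs_le] at this
          exact ⟨this.2, by linarith [this.1]⟩⟩
    exact ⟨x, hx, hx0, hfix⟩

/-- finite products have locally subexponential growth -/
theorem growth_pi {ι : Type w} [Fintype ι] {G : ι → Type u} [∀ i, Group (G i)]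
    (h : ∀ i, LocallySubexponentialGrowth (G i)) (S : Finset (∀ i, G i)) (r : ℝ) (hr : 1 < r) :
    ∀ᶠ n : ℕ in atTop, (((S : Set (∀ i, G i)) ^ n).ncard : ℝ) ≤ r ^ n := by
  classical
  set k : ℕ := Fintype.card ι + 1 with hk
  have hk0 : (0 : ℝ) < k := by positivity
  set q : ℝ := r ^ ((1 : ℝ) / k) with hq
  have hq1 : 1 < q := Real.one_lt_rpow hr (by positivity)
  have hqk : q ^ k = r := by
    rw [hq, ← Real.rpow_natCast, ← Real.rpow_mul (by linarith)]
    rw [one_div, inv_mul_cancel₀ hk0.ne', Real.rpow_one]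
  set T : ∀ i, Finset (G i) := fun i => S.image (fun x => x i) with hT
  have hsub : ∀ n : ℕ, ((S : Set (∀ i, G i)) ^ n) ⊆ Set.univ.pi fun i => ((T i : Set (G i)) ^ n) := by
    intro n
    induction n with
    | zero =>
      intro x hx
      simp only [pow_zero, Set.mem_one] at hx
      subst hx
      intro i _
      simp
    | succ n ih =>
      rw [pow_succ]
      rintro _ ⟨a, ha, b, hb, rfl⟩ i hi
      show a i * b i ∈ (T i : Set (G i)) ^ (n + 1)
      rw [pow_succ]
      exact Set.mul_mem_mul (ih ha i hi) (Finset.mem_coe.2 (Finset.mem_image_of_mem _ hb))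
  have hev : ∀ᶠ n : ℕ in atTop, ∀ i, (((T i : Set (G i)) ^ n).ncard : ℝ) ≤ q ^ n :=
    eventually_all.2 fun i => h i (T i) q hq1
  filter_upwards [hev] with n hn
  have hfin : ∀ i, ((T i : Set (G i)) ^ n).Finite := by
    intro i
    rw [← Finset.coe_pow]
    exact Finset.finite_toSet _
  have hcard : ((S : Set (∀ i, G i)) ^ n).ncard ≤ ∏ i, ((T i : Set (G i)) ^ n).ncard := by
    have h1 : (Set.univ.pi fun i => ((T i : Set (G i)) ^ n)).ncard =
        ∏ i, ((T i : Set (G i)) ^ n).ncard := by
      have h2 : (Set.univ.pi fun i => ((T i : Set (G i)) ^ n)) =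
          ((Fintype.piFinset fun i => (T i) ^ n : Finset (∀ i, G i)) : Set (∀ i, G i)) := by
        ext x
        simp [Fintype.mem_piFinset, ← Finset.coe_pow]
      rw [h2, Set.ncard_coe_finset, Fintype.card_piFinset]
      apply Finset.prod_congr rfl
      intro i _
      rw [← Finset.coe_pow, Set.ncard_coe_finset]
    rw [← h1]
    exact Set.ncard_le_ncard (hsub n) (Set.Finite.pi' hfin |>.subset (by
      intro x hx i
      exact hx i (Set.mem_univ i)))
  calc (((S : Set (∀ i, G i)) ^ n).ncard : ℝ)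
      ≤ ((∏ i, ((T i : Set (G i)) ^ n).ncard : ℕ) : ℝ) := by exact_mod_cast hcard
    _ = ∏ i, (((T i : Set (G i)) ^ n).ncard : ℝ) := by push_cast; rfl
    _ ≤ ∏ _i : ι, q ^ n := Finset.prod_le_prod (fun i _ => by positivity) fun i _ => hn i
    _ = (q ^ n) ^ (Fintype.card ι) := by rw [Finset.prod_const, Finset.card_univ]
    _ ≤ (q ^ n) ^ k := pow_le_pow_right₀ (one_le_pow₀ hq1.le) (Nat.le_succ _)
    _ = r ^ n := by rw [← pow_mul, mul_comm n k, pow_mul, hqk]

/-- the group generated by commuting images of groups of locally subexponential growth -/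
theorem growth_gen {ι : Type w} {G : ι → Type u} [∀ i, Group (G i)] {Γ : Type v} [Group Γ]
    (φ : ∀ i, G i →* Γ) (hc : Pairwise fun i j => ∀ (x : G i) (y : G j), Commute (φ i x) (φ j y))
    (hgen : ⨆ i, (φ i).range = ⊤) (h : ∀ i, LocallySubexponentialGrowth (G i)) :
    LocallySubexponentialGrowth Γ := by
  classical
  intro S r hr
  -- a finite set of indices
  have hJ : ∀ g : Γ, ∃ J : Finset ι, g ∈ ⨆ i ∈ J, (φ i).range := by
    intro g
    have hg : g ∈ ⨆ i, (φ i).range := by rw [hgen]; trivial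
    refine Subgroup.iSup_induction (fun i => (φ i).range)
      (C := fun g => ∃ J : Finset ι, g ∈ ⨆ i ∈ J, (φ i).range) hg ?_ ?_ ?_
    · intro i x hx
      refine ⟨{i}, ?_⟩
      have h1 : (φ i).range ≤ ⨆ j ∈ ({i} : Finset ι), (φ j).range :=
        le_iSup₂ (f := fun j (_ : j ∈ ({i} : Finset ι)) => (φ j).range) i (Finset.mem_singleton_self i)
      exact h1 hx
    · exact ⟨∅, one_mem _⟩
    · rintro x y ⟨J, hx⟩ ⟨J', hy⟩
      refine ⟨J ∪ J', mul_mem ?_ ?_⟩
      · exact (biSup_mono (fun i hi => Finset.mem_union_left _ hi) :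
          (⨆ i ∈ J, (φ i).range) ≤ ⨆ i ∈ J ∪ J', (φ i).range) hx
      · exact (biSup_mono (fun i hi => Finset.mem_union_right _ hi) :
          (⨆ i ∈ J', (φ i).range) ≤ ⨆ i ∈ J ∪ J', (φ i).range) hy
  choose J hJ using hJ
  set J0 : Finset ι := S.biUnion J with hJ0
  have hS : ∀ g ∈ S, g ∈ ⨆ i ∈ J0, (φ i).range := by
    intro g hg
    exact (biSup_mono (fun i hi => Finset.mem_biUnion.2 ⟨g, hg, hi⟩) :
      (⨆ i ∈ J g, (φ i).range) ≤ ⨆ i ∈ J0, (φ i).range) (hJ g)
  have hc' : Pairwise fun i j : {i // i ∈ J0} => ∀ (x : G i) (y : G j),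
      Commute (φ i x) (φ j y) := by
    intro i j hij x y
    exact hc (fun h => hij (Subtype.ext h)) x y
  let Φ : (∀ i : {i // i ∈ J0}, G i) →* Γ := MonoidHom.noncommPiCoprod (fun i => φ i) hc'
  have hΦ : Φ.range = ⨆ i ∈ J0, (φ i).range := by
    have h1 := MonoidHom.noncommPiCoprod_range (ϕ := fun i : {i // i ∈ J0} => φ i) (hcomm := hc')
    rw [iSup_subtype] at h1
    exact h1
  have hlift : ∀ g : Γ, ∃ t : (∀ i : {i // i ∈ J0}, G i), g ∈ S → Φ t = g := by
    intro g
    by_cases hg : g ∈ S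
    · have := hS g hg
      rw [← hΦ] at this
      obtain ⟨t, ht⟩ := this
      exact ⟨t, fun _ => ht⟩
    · exact ⟨1, fun h => absurd h hg⟩
  choose t ht using hlift
  set S' : Finset (∀ i : {i // i ∈ J0}, G i) := S.image t with hS'
  have hsub : ∀ n : ℕ, ((S : Set Γ) ^ n) ⊆ Φ '' ((S' : Set _) ^ n) := by
    intro n
    rw [Set.image_pow]
    apply Set.pow_subset_pow_left
    intro g hg
    exact ⟨t g, Finset.mem_coe.2 (Finset.mem_image_of_mem t hg), ht g hg⟩
  filter_upwards [growth_pi (fun i : {i // i ∈ J0} => h i) S' r hr] with n hn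
  have hfin : ((S' : Set (∀ i : {i // i ∈ J0}, G i)) ^ n).Finite := by
    rw [← Finset.coe_pow]
    exact Finset.finite_toSet _
  have h1 : ((S : Set Γ) ^ n).ncard ≤ ((S' : Set (∀ i : {i // i ∈ J0}, G i)) ^ n).ncard :=
    (Set.ncard_le_ncard (hsub n) (hfin.image _)).trans (Set.ncard_image_le hfin)
  exact le_trans (by exact_mod_cast h1) hn

/-- Let the group `Γ` be generated by the images of homomorphisms `φ i : G i →* Γ` whose images
commute elementwise for different indices. If all the groups `G i` have the fixed-point property for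
cones, then so does `Γ`. For two indices, `Γ = G₁ × G₂` and the two inclusions this is the stability
of the property under direct products. -/
theorem result {ι : Type w} (G : ι → Type u) [∀ i, Group (G i)] (Γ : Type v) [Group Γ]
    (φ : ∀ i, G i →* Γ)
    (hc : ∀ i j, i ≠ j → ∀ (x : G i) (y : G j), φ i x * φ j y = φ j y * φ i x)
    (hgen : ⨆ i, (φ i).range = ⊤) (h : ∀ i, FPC (G i)) : FPC Γ := by
  rw [fpc_iff]
  apply cones_of_form
  apply formProperty_of_growth
  exact growth_gen φ (fun i j hij x y => hc i j hij x y) hgen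
    (fun i => growth_of_cones ((fpc_iff (G i)).1 (h i)))

end Pool.Agent.Results.MP_4bac43_al.CommutingImages
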